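import Mathlib

set_option autoImplicit false

namespace Pool.Agent.Helper76.FPP

open Filter Topology

/-- The group `Aut(T)` of automorphisms of the `d`-regular rooted tree `T`: the vertices are the
finite words over `Fin d` (the root is the empty word, the children of `w` are the words `w ++ [i]`),
and an automorphism is a bijection of the vertices preserving the level (the length) and the
ancestor relation (being a prefix). -/
def TreeAut (d : ℕ) : Subgroup (Equiv.Perm (List (Fin d))) where
  carrier := {g | (∀ w, (g w).length = w.length) ∧ ∀ v w, g v <+: g w ↔ v <+: w}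
  one_mem' := ⟨fun _ => rfl, fun _ _ => Iff.rfl⟩
  mul_mem' := by
    rintro g h ⟨hg1, hg2⟩ ⟨hh1, hh2⟩
    refine ⟨fun w => ?_, fun v w => ?_⟩
    · rw [Equiv.Perm.mul_apply, hg1, hh1]
    · rw [Equiv.Perm.mul_apply, Equiv.Perm.mul_apply, hg2, hh2]
  inv_mem' := by
    rintro g ⟨hg1, hg2⟩
    have h : ∀ w, g (g⁻¹ w) = w := fun w => g.apply_symm_apply w
    refine ⟨fun w => ?_, fun v w => ?_⟩
    · rw [← hg1, h]
    · rw [← hg2, h, h]

/-- The set `L_n` of vertices at distance `n` from the root. -/
abbrev Level (d n : ℕ) : Type := {w : List (Fin d) // w.length = n}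

/-- The permutation of `L_n` induced by a tree automorphism. -/
def onLevel {d : ℕ} (n : ℕ) (g : TreeAut d) : Equiv.Perm (Level d n) :=
  (g : Equiv.Perm (List (Fin d))).subtypePerm (fun w => by rw [g.2.1 w])

/-- The image `G_n` of `G` in `Sym(L_n)`. -/
def levelImage {d : ℕ} (G : Subgroup (TreeAut d)) (n : ℕ) : Set (Equiv.Perm (Level d n)) :=
  {σ | ∃ g ∈ G, onLevel n g = σ}

/-- The proportion of the elements of `G_n` fixing at least one vertex of `L_n`. -/
noncomputable def fixProp {d : ℕ} (G : Subgroup (TreeAut d)) (n : ℕ) : ℝ :=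
  ({σ | σ ∈ levelImage G n ∧ ∃ v, σ v = v}.ncard : ℝ) / ((levelImage G n).ncard : ℝ)

/-- `FPP(G) = α`. -/
def HasFPP {d : ℕ} (G : Subgroup (TreeAut d)) (α : ℝ) : Prop :=
  Tendsto (fun n => fixProp G n) atTop (𝓝 α)

/-- The profinite topology of `Aut(T)`: the coarsest topology for which all the maps
`Aut(T) → Sym(L_n)` to the discrete finite groups `Sym(L_n)` are continuous. -/
@[instance_reducible] def profiniteTopology (d : ℕ) : TopologicalSpace (TreeAut d) :=
  ⨅ n : ℕ, TopologicalSpace.induced (onLevel n) ⊥

/-- `G` is topologically finitely generated: some finitely generated subgroup of `G` is dense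
in `G`. -/
def IsTopFG {d : ℕ} (G : Subgroup (TreeAut d)) : Prop :=
  ∃ H : Subgroup (TreeAut d), H ≤ G ∧ H.FG ∧
    (G : Set (TreeAut d)) ⊆ @closure _ (profiniteTopology d) (H : Set (TreeAut d))

/-- `G` is level-transitive: it acts transitively on every level. -/
def IsLevelTransitive {d : ℕ} (G : Subgroup (TreeAut d)) : Prop :=
  ∀ n : ℕ, ∀ v w : Level d n, ∃ g ∈ G, onLevel n g v = w

end Pool.Agent.Helper76.FPP
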