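import Mathlib
import Pool.Agent.Helper76.FPP.Defs

set_option autoImplicit false

namespace Pool.Agent.Helper76.FPP

open Filter Topology

/-- a transducer through which an abelian group acts on the tree -/
structure Mach (Γ : Type) [AddCommGroup Γ] (Q : Type) (d : ℕ) where
  out : Q → Γ → Fin d → Fin d
  nx : Q → Fin d → Q
  car : Q → Γ → Fin d → Γ
  out_zero : ∀ q i, out q 0 i = i
  out_add : ∀ q g h i, out q (g + h) i = out q g (out q h i)
  nx_out : ∀ q h i, nx q (out q h i) = nx q i
  car_add : ∀ q g h i, car q (g + h) i = car q g (out q h i) + car q h i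

namespace Mach

variable {Γ : Type} [AddCommGroup Γ] {Q : Type} {d : ℕ} (m : Mach Γ Q d)

theorem car_zero (q : Q) (i : Fin d) : m.car q 0 i = 0 := by
  have h := m.car_add q 0 0 i
  rw [add_zero, m.out_zero] at h
  exact left_eq_add.1 h

def act : Q → Γ → List (Fin d) → List (Fin d)
  | _, _, [] => []
  | q, g, i :: w => m.out q g i :: act (m.nx q i) (m.car q g i) w

theorem act_length (q : Q) (g : Γ) (w : List (Fin d)) : (m.act q g w).length = w.length := by
  induction w generalizing q g with
  | nil => rfl
  | cons i w ih => simp [act, ih]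

theorem act_zero (q : Q) (w : List (Fin d)) : m.act q 0 w = w := by
  induction w generalizing q with
  | nil => rfl
  | cons i w ih => rw [act, m.out_zero, m.car_zero, ih]

theorem act_add (q : Q) (g h : Γ) (w : List (Fin d)) :
    m.act q (g + h) w = m.act q g (m.act q h w) := by
  induction w generalizing q g h with
  | nil => rfl
  | cons i w ih => rw [act, act, act, m.out_add, m.car_add, ih, m.nx_out]

theorem act_append (v : List (Fin d)) : ∀ (q : Q) (g : Γ), ∃ (q' : Q) (g' : Γ), ∀ u,
    m.act q g (v ++ u) = m.act q g v ++ m.act q' g' u := by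
  induction v with
  | nil => intro q g; exact ⟨q, g, fun u => rfl⟩
  | cons i v ih =>
    intro q g
    obtain ⟨q', g', h⟩ := ih (m.nx q i) (m.car q g i)
    exact ⟨q', g', fun u => by
      simp only [List.cons_append, act, h]⟩

theorem act_prefix {q : Q} {g : Γ} {v w : List (Fin d)} (h : v <+: w) :
    m.act q g v <+: m.act q g w := by
  obtain ⟨u, rfl⟩ := h
  obtain ⟨q', g', h'⟩ := m.act_append v q g
  exact ⟨_, (h' u).symm⟩

theorem act_neg_self (q : Q) (g : Γ) (w : List (Fin d)) : m.act q (-g) (m.act q g w) = w := by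
  rw [← act_add, neg_add_cancel, act_zero]

theorem act_self_neg (q : Q) (g : Γ) (w : List (Fin d)) : m.act q g (m.act q (-g) w) = w := by
  rw [← act_add, add_neg_cancel, act_zero]

/-- the action as a tree automorphism -/
def aut (q : Q) (g : Γ) : TreeAut d :=
  ⟨⟨m.act q g, m.act q (-g), m.act_neg_self q g, m.act_self_neg q g⟩,
    ⟨fun w => m.act_length q g w, fun v w => ⟨fun h => by
      have := m.act_prefix (q := q) (g := -g) h
      change m.act q (-g) (m.act q g v) <+: m.act q (-g) (m.act q g w) at this
      rwa [act_neg_self, act_neg_self] at this, fun h => m.act_prefix h⟩⟩⟩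

theorem aut_apply (q : Q) (g : Γ) (w : List (Fin d)) :
    ((m.aut q g : TreeAut d) : Equiv.Perm (List (Fin d))) w = m.act q g w := rfl

theorem aut_add (q : Q) (g h : Γ) : m.aut q (g + h) = m.aut q g * m.aut q h := by
  apply Subtype.ext
  apply Equiv.ext
  intro w
  exact m.act_add q g h w

theorem aut_zero (q : Q) : m.aut q 0 = 1 := by
  apply Subtype.ext
  apply Equiv.ext
  intro w
  exact m.act_zero q w

def hom (q : Q) : Multiplicative Γ →* TreeAut d where
  toFun g := m.aut q g.toAdd
  map_one' := m.aut_zero q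
  map_mul' g h := m.aut_add q g.toAdd h.toAdd

/-- fixing a vertex at level `n` -/
def Fx : ℕ → Q → Γ → Prop
  | 0, _, _ => True
  | n + 1, q, g => ∃ i, m.out q g i = i ∧ Fx n (m.nx q i) (m.car q g i)

theorem fx_iff (n : ℕ) (q : Q) (g : Γ) :
    m.Fx n q g ↔ ∃ w : List (Fin d), w.length = n ∧ m.act q g w = w := by
  induction n generalizing q g with
  | zero =>
    simp only [Fx, true_iff]
    exact ⟨[], rfl, rfl⟩
  | succ n ih =>
    simp only [Fx, ih]
    constructor
    · rintro ⟨i, hi, w, hw, hw'⟩
      exact ⟨i :: w, by simp [hw], by rw [act, hi, hw']⟩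
    · rintro ⟨w, hw, hw'⟩
      cases w with
      | nil => simp at hw
      | cons i w =>
        rw [act, List.cons.injEq] at hw'
        exact ⟨i, hw'.1, w, by simpa using hw, hw'.2⟩

theorem onLevel_fix (n : ℕ) (q : Q) (g : Γ) :
    (∃ v, onLevel n (m.aut q g) v = v) ↔ m.Fx n q g := by
  rw [fx_iff]
  constructor
  · rintro ⟨⟨w, hw⟩, h⟩
    exact ⟨w, hw, congrArg Subtype.val h⟩
  · rintro ⟨w, hw, h⟩
    exact ⟨⟨w, hw⟩, Subtype.ext h⟩

end Mach

/-- `onLevel n` as a homomorphism -/
def onLevelHom {d : ℕ} (n : ℕ) : TreeAut d →* Equiv.Perm (Level d n) where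
  toFun := onLevel n
  map_one' := by
    apply Equiv.ext; intro v; rfl
  map_mul' g h := by
    apply Equiv.ext; intro v; rfl

instance (d n : ℕ) : Finite (Level d n) :=
  (List.finite_length_eq (Fin d) n).to_subtype

/-- general principle: proportions are preserved by surjective homomorphisms of finite groups -/
theorem card_fiber_ratio {A B : Type} [Group A] [Finite A] [Group B] (f : A →* B) (P : B → Prop) :
    (({b | b ∈ Set.range f ∧ P b}.ncard : ℝ) / ((Set.range f).ncard : ℝ)) =
      (({a | P (f a)}.ncard : ℝ) / (Nat.card A : ℝ)) := by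
  classical
  have := Fintype.ofFinite A
  have key : ∀ Y : Set B, (Y ⊆ Set.range f) →
      (f ⁻¹' Y).ncard = Nat.card f.ker * Y.ncard := by
    intro Y hY
    have hfin : Y.Finite := (Set.finite_range f).subset hY
    induction Y, hfin using Set.Finite.induction_on with
    | empty => simp
    | @insert b Y hb hYf ih =>
      have hY' : Y ⊆ Set.range f := fun y hy => hY (Set.mem_insert_of_mem _ hy)
      have hb' : b ∈ Set.range f := hY (Set.mem_insert _ _)
      obtain ⟨a, rfl⟩ := hb'
      have hd1 : Disjoint (f ⁻¹' {f a}) (f ⁻¹' Y) := by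
        apply Set.disjoint_left.2
        intro x hx hx'
        simp only [Set.mem_preimage, Set.mem_singleton_iff] at hx hx'
        exact hb (hx ▸ hx')
      have hd2 : Disjoint {f a} Y := by
        rw [Set.disjoint_singleton_left]; exact hb
      rw [Set.insert_eq, Set.preimage_union, Set.ncard_union_eq hd1 (Set.toFinite _)
        (Set.toFinite _), Set.ncard_union_eq hd2 (Set.finite_singleton _) hYf, ih hY']
      have h1 : (f ⁻¹' {f a}) = (fun k => a * k) '' (f.ker : Set A) := by
        ext x
        simp only [Set.mem_preimage, Set.mem_singleton_iff, Set.mem_image, SetLike.mem_coe,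
          MonoidHom.mem_ker]
        constructor
        · intro h; exact ⟨a⁻¹ * x, by simp [h], by simp⟩
        · rintro ⟨k, hk, rfl⟩; simp [hk]
      rw [h1, Set.ncard_image_of_injective _ (mul_right_injective a)]
      rw [Set.ncard_singleton, mul_add, mul_one]
      rfl
  have h1 := key (Set.range f) le_rfl
  have h2 := key {b | b ∈ Set.range f ∧ P b} (fun b hb => hb.1)
  have e1 : f ⁻¹' (Set.range f) = Set.univ := by
    ext x; simp
  have e2 : f ⁻¹' {b | b ∈ Set.range f ∧ P b} = {a | P (f a)} := by
    ext x; simp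
  rw [e1, Set.ncard_univ] at h1
  rw [e2] at h2
  rw [h1, h2]
  have hk : (0 : ℝ) < (Nat.card f.ker : ℝ) := by
    exact_mod_cast Nat.card_pos
  push_cast
  rw [mul_div_mul_left _ _ hk.ne']

end Pool.Agent.Helper76.FPP
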