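import Mathlib
import Pool.Agent.Helper76.FPP.Machine

set_option autoImplicit false

namespace Pool.Agent.Helper76.FPP

open Filter Topology Finset

/-- states of the transducer -/
inductive St (p : ℕ) : Type
  | pre (k : ℕ)
  | odo
  | split (n : ℕ)
  | rot (n : ℕ)
  | br (j : ZMod p)
  | inf
  | triv

section

variable (p : ℕ) [hp : Fact p.Prime] {d e : ℕ} (φ : Fin d ≃ ZMod p × Fin e) (c : ℕ → ℕ)

def rotBy (k : ZMod p) (i : Fin d) : Fin d := φ.symm ((φ i).1 + k, (φ i).2)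

theorem rotBy_zero (i : Fin d) : rotBy p φ 0 i = i := by
  simp [rotBy]

theorem rotBy_add (k l : ZMod p) (i : Fin d) :
    rotBy p φ (k + l) i = rotBy p φ k (rotBy p φ l i) := by
  simp [rotBy, add_assoc, add_comm]

theorem rotBy_eq_iff (k : ZMod p) (i : Fin d) : rotBy p φ k i = i ↔ k = 0 := by
  constructor
  · intro h
    have := congrArg φ h
    simp only [rotBy, Equiv.apply_symm_apply] at this
    have := congrArg Prod.fst this
    simpa using this
  · rintro rfl; exact rotBy_zero p φ i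

def sOut : St p → ℤ × ℤ → Fin d → Fin d
  | .pre 0, _, i => i
  | .pre (_ + 1), g, i => rotBy p φ (g.2 : ZMod p) i
  | .odo, g, i => rotBy p φ (g.2 : ZMod p) i
  | .split _, _, i => i
  | .rot _, g, i => rotBy p φ (g.2 : ZMod p) i
  | .br j, g, i => rotBy p φ ((g.2 : ZMod p) - j * (g.1 : ZMod p)) i
  | .inf, g, i => rotBy p φ (g.1 : ZMod p) i
  | .triv, _, i => i

def carry (g : ℤ × ℤ) (i : Fin d) : ℤ × ℤ := (g.1, (((φ i).1.val : ℤ) + g.2) / p)

def sCar : St p → ℤ × ℤ → Fin d → ℤ × ℤ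
  | .pre 0, g, _ => g
  | .pre (_ + 1), g, i => carry p φ g i
  | .odo, g, i => carry p φ g i
  | .split _, g, _ => g
  | .rot _, g, i => carry p φ g i
  | .br _, g, _ => g
  | .inf, g, _ => g
  | .triv, g, _ => g

open Classical in
noncomputable def sNx : St p → Fin d → St p
  | .pre 0, i => if (φ i).1 = 0 then .split 0 else .inf
  | .pre (k + 1), _ => .pre k
  | .odo, _ => .odo
  | .split n, i => if (φ i).1 ≠ 0 ∧ (φ i).1.val ≤ c n then .br (φ i).1 else .rot n
  | .rot n, _ => .split (n + 1)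
  | .br _, _ => .triv
  | .inf, _ => .triv
  | .triv, _ => .triv

theorem carry_add (g h : ℤ × ℤ) (i : Fin d) :
    carry p φ (g + h) i = carry p φ g (rotBy p φ (h.2 : ZMod p) i) + carry p φ h i := by
  have hpos : (p : ℤ) ≠ 0 := by exact_mod_cast hp.out.ne_zero
  have h1 : ((((φ (rotBy p φ (h.2 : ZMod p) i)).1).val : ℕ) : ℤ) =
      (((φ i).1.val : ℤ) + h.2) % p := by
    simp only [rotBy, Equiv.apply_symm_apply]
    have : (φ i).1 + (h.2 : ZMod p) = ((((φ i).1.val : ℤ) + h.2 : ℤ) : ZMod p) := by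
      push_cast
      rw [ZMod.natCast_zmod_val]
    rw [this, ZMod.val_intCast]
  unfold carry
  rw [h1]
  ext
  · simp
  · simp only [Prod.snd_add]
    have e := Int.mul_ediv_add_emod (((φ i).1.val : ℤ) + h.2) p
    have : ((φ i).1.val : ℤ) + (g.2 + h.2) =
        ((((φ i).1.val : ℤ) + h.2) % p + g.2) + p * ((((φ i).1.val : ℤ) + h.2) / p) := by
      linarith
    rw [this, Int.add_mul_ediv_left _ _ hpos]

noncomputable def mach : Mach (ℤ × ℤ) (St p) d where
  out := sOut p φ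
  nx := sNx p φ c
  car := sCar p φ
  out_zero q i := by
    rcases q with (_ | k) | _ | _ | _ | _ | _ | _ <;> simp [sOut, rotBy_zero]
  out_add q g h i := by
    rcases q with (_ | k) | _ | _ | _ | j | _ | _
    · rfl
    · simp only [sOut, Prod.snd_add, Int.cast_add, rotBy_add]
    · simp only [sOut, Prod.snd_add, Int.cast_add, rotBy_add]
    · rfl
    · simp only [sOut, Prod.snd_add, Int.cast_add, rotBy_add]
    · simp only [sOut]
      rw [← rotBy_add]
      congr 1
      simp only [Prod.snd_add, Prod.fst_add, Int.cast_add]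
      ring
    · simp only [sOut, Prod.fst_add, Int.cast_add, rotBy_add]
    · rfl
  nx_out q h i := by
    rcases q with (_ | k) | _ | _ | _ | _ | _ | _ <;> rfl
  car_add q g h i := by
    rcases q with (_ | k) | _ | _ | _ | _ | _ | _
    · rfl
    · exact carry_add p φ g h i
    · exact carry_add p φ g h i
    · rfl
    · exact carry_add p φ g h i
    · rfl
    · rfl
    · rfl

theorem carry_of_dvd (x z : ℤ) (h : (p : ℤ) ∣ z) (i : Fin d) :
    carry p φ (x, z) i = (x, z / p) := by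
  obtain ⟨k, rfl⟩ := h
  have hpos : (p : ℤ) ≠ 0 := by exact_mod_cast hp.out.ne_zero
  unfold carry
  simp only
  rw [Int.add_mul_ediv_left _ _ hpos, Int.mul_ediv_cancel_left _ hpos]
  have : ((((φ i).1).val : ℕ) : ℤ) / p = 0 :=
    Int.ediv_eq_zero_of_lt (by positivity) (by exact_mod_cast ZMod.val_lt _)
  rw [this, zero_add]

theorem intCast_zero_iff (z : ℤ) : (z : ZMod p) = 0 ↔ (p : ℤ) ∣ z := ZMod.intCast_zmod_eq_zero_iff_dvd z p

/-- rotating states -/
theorem fx_rot (hd : 0 < d) {q q' : St p} (ho : ∀ g i, sOut p φ q g i = rotBy p φ (g.2 : ZMod p) i)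
    (hc : ∀ g i, sCar p φ q g i = carry p φ g i) (hn : ∀ i, sNx p φ c q i = q') (N : ℕ) (x z : ℤ) :
    (mach p φ c).Fx (N + 1) q (x, z) ↔ (p : ℤ) ∣ z ∧ (mach p φ c).Fx N q' (x, z / p) := by
  change (∃ i, sOut p φ q (x, z) i = i ∧ (mach p φ c).Fx N (sNx p φ c q i) (sCar p φ q (x, z) i)) ↔ _
  simp only [ho, hc, hn, rotBy_eq_iff, intCast_zero_iff]
  constructor
  · rintro ⟨i, h1, h2⟩
    rw [carry_of_dvd p φ x z h1] at h2
    exact ⟨h1, h2⟩
  · rintro ⟨h1, h2⟩
    refine ⟨⟨0, hd⟩, h1, ?_⟩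
    rw [carry_of_dvd p φ x z h1]
    exact h2

theorem fx_triv (hd : 0 < d) (N : ℕ) (g : ℤ × ℤ) : (mach p φ c).Fx N .triv g := by
  induction N generalizing g with
  | zero => trivial
  | succ N ih => exact ⟨⟨0, hd⟩, rfl, ih _⟩

theorem fx_br (hd : 0 < d) (N : ℕ) (j : ZMod p) (x z : ℤ) :
    (mach p φ c).Fx (N + 1) (.br j) (x, z) ↔ (z : ZMod p) = j * (x : ZMod p) := by
  change (∃ i, rotBy p φ ((z : ZMod p) - j * (x : ZMod p)) i = i ∧
    (mach p φ c).Fx N .triv (x, z)) ↔ _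
  simp only [rotBy_eq_iff, sub_eq_zero]
  exact ⟨fun ⟨_, h, _⟩ => h, fun h => ⟨⟨0, hd⟩, h, fx_triv p φ c hd N _⟩⟩

theorem fx_inf (hd : 0 < d) (N : ℕ) (x z : ℤ) :
    (mach p φ c).Fx (N + 1) .inf (x, z) ↔ (x : ZMod p) = 0 := by
  change (∃ i, rotBy p φ (x : ZMod p) i = i ∧ (mach p φ c).Fx N .triv (x, z)) ↔ _
  simp only [rotBy_eq_iff]
  exact ⟨fun ⟨_, h, _⟩ => h, fun h => ⟨⟨0, hd⟩, h, fx_triv p φ c hd N _⟩⟩

theorem fx_pre0 (he : 0 < e) (N : ℕ) (x z : ℤ) :
    (mach p φ c).Fx (N + 1) (.pre 0) (x, z) ↔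
      (mach p φ c).Fx N (.split 0) (x, z) ∨ (mach p φ c).Fx N .inf (x, z) := by
  change (∃ i, i = i ∧ (mach p φ c).Fx N (sNx p φ c (.pre 0) i) (x, z)) ↔ _
  constructor
  · rintro ⟨i, -, h⟩
    simp only [sNx] at h
    split at h
    · exact Or.inl h
    · exact Or.inr h
  · rintro (h | h)
    · refine ⟨φ.symm (0, ⟨0, he⟩), rfl, ?_⟩
      simpa [sNx] using h
    · refine ⟨φ.symm (1, ⟨0, he⟩), rfl, ?_⟩
      simpa [sNx] using h

theorem fx_split (he : 0 < e) (N n : ℕ) (x z : ℤ) :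
    (mach p φ c).Fx (N + 1) (.split n) (x, z) ↔
      (mach p φ c).Fx N (.rot n) (x, z) ∨
        ∃ j : ZMod p, (j ≠ 0 ∧ j.val ≤ c n) ∧ (mach p φ c).Fx N (.br j) (x, z) := by
  change (∃ i, i = i ∧ (mach p φ c).Fx N (sNx p φ c (.split n) i) (x, z)) ↔ _
  constructor
  · rintro ⟨i, -, h⟩
    simp only [sNx] at h
    split at h
    · rename_i hj
      exact Or.inr ⟨_, hj, h⟩
    · exact Or.inl h
  · rintro (h | ⟨j, hj, h⟩)
    · refine ⟨φ.symm (0, ⟨0, he⟩), rfl, ?_⟩
      simpa [sNx] using h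
    · refine ⟨φ.symm (j, ⟨0, he⟩), rfl, ?_⟩
      simp only [sNx, Equiv.apply_symm_apply]
      rw [if_pos hj]
      exact h

/-! ### periodicity -/

theorem act_periodic (w : List (Fin d)) : ∀ (q : St p) (x z : ℤ), (p : ℤ) ∣ x →
    (p : ℤ) ^ w.length ∣ z → (mach p φ c).act q (x, z) w = w := by
  induction w with
  | nil => intro q x z _ _; rfl
  | cons i w ih =>
    intro q x z hx hz
    rw [List.length_cons] at hz
    have hpz : (p : ℤ) ∣ z := dvd_trans (dvd_pow_self _ (by omega)) hz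
    have hz' : (p : ℤ) ^ w.length ∣ z := dvd_trans (pow_dvd_pow _ (by omega)) hz
    have hz'' : (p : ℤ) ^ w.length ∣ z / p := by
      obtain ⟨k, rfl⟩ := hz
      have hpos : (p : ℤ) ≠ 0 := by exact_mod_cast hp.out.ne_zero
      rw [pow_succ', mul_assoc, Int.mul_ediv_cancel_left _ hpos]
      exact dvd_mul_right _ _
    have x0 : (x : ZMod p) = 0 := (intCast_zero_iff p x).2 hx
    have z0 : (z : ZMod p) = 0 := (intCast_zero_iff p z).2 hpz
    change sOut p φ q (x, z) i :: (mach p φ c).act (sNx p φ c q i) (sCar p φ q (x, z) i) w = _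
    have h1 : sOut p φ q (x, z) i = i := by
      rcases q with (_ | k) | _ | _ | _ | _ | _ | _ <;> simp [sOut, x0, z0, rotBy_zero]
    have h2 : (mach p φ c).act (sNx p φ c q i) (sCar p φ q (x, z) i) w = w := by
      rcases q with (_ | k) | _ | _ | _ | _ | _ | _ <;>
        simp only [sCar, carry_of_dvd p φ x z hpz] <;> exact ih _ _ _ hx (by assumption)
    rw [h1, h2]

end

/-! ### counting -/

theorem card_dvd (p M : ℕ) (hp : 0 < p) (P : ℕ → Prop) [DecidablePred P]
    [DecidablePred fun z => p ∣ z ∧ P (z / p)] :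
    ((range (p ^ (M + 1))).filter (fun z => p ∣ z ∧ P (z / p))).card =
      ((range (p ^ M)).filter P).card := by
  symm
  apply Finset.card_bij (fun z _ => p * z)
  · intro z hz
    simp only [Finset.mem_filter, Finset.mem_range] at hz ⊢
    refine ⟨?_, dvd_mul_right _ _, ?_⟩
    · rw [pow_succ']; exact Nat.mul_lt_mul_of_pos_left hz.1 hp
    · rw [Nat.mul_div_cancel_left _ hp]; exact hz.2
  · intro a _ b _ h
    exact Nat.eq_of_mul_eq_mul_left hp h
  · intro z hz
    simp only [Finset.mem_filter, Finset.mem_range] at hz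
    obtain ⟨h1, ⟨k, rfl⟩, h3⟩ := hz
    rw [Nat.mul_div_cancel_left _ hp] at h3
    refine ⟨k, ?_, rfl⟩
    simp only [Finset.mem_filter, Finset.mem_range]
    refine ⟨?_, h3⟩
    rw [pow_succ'] at h1
    exact Nat.lt_of_mul_lt_mul_left h1

theorem card_residue (p M : ℕ) [hp : Fact p.Prime] (r : ZMod p) :
    ((range (p ^ (M + 1))).filter (fun z : ℕ => (z : ZMod p) = r)).card = p ^ M := by
  have hpos : 0 < p := hp.out.pos
  conv_rhs => rw [← Finset.card_range (p ^ M)]
  symm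
  apply Finset.card_bij (fun z _ => p * z + r.val)
  · intro z hz
    simp only [Finset.mem_filter, Finset.mem_range] at hz ⊢
    refine ⟨?_, by simp⟩
    have h1 : r.val < p := ZMod.val_lt r
    calc p * z + r.val < p * z + p := by omega
      _ = p * (z + 1) := by ring
      _ ≤ p * p ^ M := Nat.mul_le_mul_left _ hz
      _ = p ^ (M + 1) := by ring
  · intro a _ b _ h
    exact Nat.eq_of_mul_eq_mul_left hpos (Nat.add_right_cancel h)
  · intro z hz
    simp only [Finset.mem_filter, Finset.mem_range] at hz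
    obtain ⟨h1, h2⟩ := hz
    have h3 : r.val = z % p := by rw [← h2, ZMod.val_natCast]
    refine ⟨z / p, ?_, ?_⟩
    · simp only [Finset.mem_range]
      rw [Nat.div_lt_iff_lt_mul hpos, ← pow_succ]
      exact h1
    · rw [h3]; exact Nat.div_add_mod z p

end Pool.Agent.Helper76.FPP
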