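import Mathlib
import Pool.Agent.Helper76.FPP.Special

set_option autoImplicit false

namespace Pool.Agent.Helper76.FPP

open Filter Topology Finset

section

variable (p : ℕ) [hp : Fact p.Prime] {d e : ℕ} (φ : Fin d ≃ ZMod p × Fin e) (c : ℕ → ℕ)

open Classical in
/-- number of `z < p^L` fixing a vertex of level `N` below the state `split n` -/
noncomputable def cnt (N n L : ℕ) (x : ℤ) : ℕ :=
  ((range (p ^ L)).filter (fun z : ℕ => (mach p φ c).Fx N (.split n) (x, (z : ℤ)))).card

theorem fx_rot' (hd : 0 < d) (N n : ℕ) (x z : ℤ) :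
    (mach p φ c).Fx (N + 1) (.rot n) (x, z) ↔
      (p : ℤ) ∣ z ∧ (mach p φ c).Fx N (.split (n + 1)) (x, z / p) :=
  fx_rot p φ c hd (fun _ _ => rfl) (fun _ _ => rfl) (fun _ => rfl) N x z

theorem card_J (m : ℕ) (hm : m ≤ p - 1) :
    ((Finset.univ : Finset (ZMod p)).filter (fun j => j ≠ 0 ∧ j.val ≤ m)).card = m := by
  have hpos : 0 < p := hp.out.pos
  conv_rhs => rw [← Nat.card_Icc 1 m |>.trans (by omega : m + 1 - 1 = m)]
  apply Finset.card_bij (fun j _ => j.val)
  · intro j hj
    simp only [Finset.mem_filter, Finset.mem_univ, true_and] at hj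
    rw [Finset.mem_Icc]
    refine ⟨?_, hj.2⟩
    exact Nat.one_le_iff_ne_zero.2 (fun h => hj.1 ((ZMod.val_eq_zero j).1 h))
  · intro a _ b _ h
    exact ZMod.val_injective p h
  · intro k hk
    rw [Finset.mem_Icc] at hk
    have hkp : k < p := by omega
    refine ⟨(k : ZMod p), ?_, ZMod.val_natCast_of_lt hkp⟩
    simp only [Finset.mem_filter, Finset.mem_univ, true_and]
    refine ⟨?_, by rw [ZMod.val_natCast_of_lt hkp]; exact hk.2⟩
    intro h
    have := congrArg ZMod.val h
    rw [ZMod.val_natCast_of_lt hkp, ZMod.val_zero] at this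
    omega

theorem cnt_step (he : 0 < e) (hd : 0 < d) (hc : ∀ n, c n ≤ p - 1) (N n L : ℕ) (x : ℤ)
    (hx : (x : ZMod p) ≠ 0) :
    cnt p φ c (N + 2) n (L + 1) x = c n * p ^ L + cnt p φ c N (n + 1) L x := by
  classical
  unfold cnt
  have hset : (range (p ^ (L + 1))).filter
      (fun z : ℕ => (mach p φ c).Fx (N + 2) (.split n) (x, (z : ℤ))) =
      (((Finset.univ : Finset (ZMod p)).filter (fun j => j ≠ 0 ∧ j.val ≤ c n)).biUnion
        (fun j => (range (p ^ (L + 1))).filter (fun z : ℕ => (z : ZMod p) = j * (x : ZMod p)))) ∪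
      (range (p ^ (L + 1))).filter (fun z : ℕ => p ∣ z ∧
        (fun z' : ℕ => (mach p φ c).Fx N (.split (n + 1)) (x, (z' : ℤ))) (z / p)) := by
    ext z
    simp only [Finset.mem_filter, Finset.mem_union, Finset.mem_biUnion, Finset.mem_univ, true_and,
      Finset.mem_range]
    rw [fx_split p φ c he, fx_rot' p φ c hd]
    have e1 : ((p : ℤ) ∣ (z : ℤ)) ↔ p ∣ z := Int.natCast_dvd_natCast
    have e2 : (z : ℤ) / (p : ℤ) = ((z / p : ℕ) : ℤ) := by push_cast; rfl
    rw [e1, e2]
    constructor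
    · rintro ⟨h1, h2 | ⟨j, hj, h2⟩⟩
      · exact Or.inr ⟨h1, h2⟩
      · rw [fx_br p φ c hd] at h2
        left
        exact ⟨j, hj, h1, by simpa using h2⟩
    · rintro (⟨j, hj, h1, h2⟩ | ⟨h1, h2⟩)
      · refine ⟨h1, Or.inr ⟨j, hj, ?_⟩⟩
        rw [fx_br p φ c hd]
        simpa using h2
      · exact ⟨h1, Or.inl h2⟩
  rw [hset, Finset.card_union_of_disjoint, Finset.card_biUnion]
  · rw [card_dvd p L hp.out.pos
      (fun z' : ℕ => (mach p φ c).Fx N (.split (n + 1)) (x, (z' : ℤ)))]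
    congr 1
    rw [Finset.sum_congr rfl (fun j _ => card_residue p L (j * (x : ZMod p))), Finset.sum_const,
      card_J p (c n) (hc n), smul_eq_mul]
  · intro j _ j' _ hjj'
    change Disjoint _ _
    rw [Finset.disjoint_left]
    intro z hz hz'
    simp only [Finset.mem_filter] at hz hz'
    have := hz.2.symm.trans hz'.2
    exact hjj' (mul_right_cancel₀ hx this)
  · rw [Finset.disjoint_left]
    intro z hz hz'
    simp only [Finset.mem_filter, Finset.mem_biUnion, Finset.mem_univ, true_and] at hz hz'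
    obtain ⟨j, hj, _, h2⟩ := hz
    obtain ⟨_, h3, _⟩ := hz'
    have h0 : (z : ZMod p) = 0 := (ZMod.natCast_eq_zero_iff z p).2 h3
    rw [h0] at h2
    exact (mul_ne_zero hj.1 hx) h2.symm

/-- partial sums -/
noncomputable def SS (k n : ℕ) : ℝ := ∑ i ∈ range k, (c (n + i) : ℝ) / (p : ℝ) ^ (i + 1) + 1 / (p : ℝ) ^ k

theorem SS_succ (k n : ℕ) : SS p c (k + 1) n = ((c n : ℝ) + SS p c k (n + 1)) / p := by
  have hpos : (0 : ℝ) < p := by exact_mod_cast hp.out.pos
  unfold SS
  rw [Finset.sum_range_succ', add_div, add_div, Finset.sum_div]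
  have : ∀ i ∈ range k, (c (n + (i + 1)) : ℝ) / (p : ℝ) ^ (i + 1 + 1) =
      (c (n + 1 + i) : ℝ) / (p : ℝ) ^ (i + 1) / p := by
    intro i _
    rw [div_div, ← pow_succ, show n + (i + 1) = n + 1 + i by ring]
  rw [Finset.sum_congr rfl this]
  simp only [add_zero, zero_add, pow_one]
  rw [div_div, ← pow_succ]
  ring

theorem cnt_formula (he : 0 < e) (hd : 0 < d) (hc : ∀ n, c n ≤ p - 1) (ε : ℕ) (hε : ε ≤ 1) (x : ℤ)
    (hx : (x : ZMod p) ≠ 0) (k : ℕ) : ∀ (n M : ℕ),
    (cnt p φ c (2 * k + ε) n (M + k) x : ℝ) = (p : ℝ) ^ (M + k) * SS p c k n := by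
  classical
  have hpos : (0 : ℝ) < p := by exact_mod_cast hp.out.pos
  induction k with
  | zero =>
    intro n M
    have : cnt p φ c (2 * 0 + ε) n (M + 0) x = p ^ M := by
      unfold cnt
      rw [Finset.filter_true_of_mem, Finset.card_range]
      · simp
      · intro z _
        interval_cases ε
        · trivial
        · exact ⟨⟨0, hd⟩, rfl, trivial⟩
    rw [this]
    simp [SS]
  | succ k ih =>
    intro n M
    rw [show 2 * (k + 1) + ε = (2 * k + ε) + 2 by ring, show M + (k + 1) = (M + k) + 1 by ring,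
      cnt_step p φ c he hd hc _ _ _ _ hx]
    push_cast
    rw [ih, SS_succ, pow_succ]
    field_simp

open Classical in
theorem count_pre0 (he : 0 < e) (hd : 0 < d) (N L x : ℕ) (hx : x < p) :
    ((range (p ^ L)).filter (fun z : ℕ => (mach p φ c).Fx (N + 2) (.pre 0) ((x : ℤ), (z : ℤ)))).card
      = if x = 0 then p ^ L else cnt p φ c (N + 1) 0 L x := by
  split_ifs with h
  · subst h
    rw [Finset.filter_true_of_mem, Finset.card_range]
    intro z _
    rw [fx_pre0 p φ c he]
    right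
    rw [fx_inf p φ c hd]
    simp
  · unfold cnt
    congr 1
    apply Finset.filter_congr
    intro z _
    rw [fx_pre0 p φ c he, fx_inf p φ c hd]
    have : ((x : ℤ) : ZMod p) ≠ 0 := by
      rw [Int.cast_natCast]
      intro h0
      rw [ZMod.natCast_eq_zero_iff] at h0
      exact absurd (Nat.le_of_dvd (by omega) h0) (by omega)
    exact or_iff_left this

open Classical in
theorem count_pre (hd : 0 < d) (m N L : ℕ) (x : ℤ) :
    ((range (p ^ (L + m))).filter
      (fun z : ℕ => (mach p φ c).Fx (N + m) (.pre m) (x, (z : ℤ)))).card =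
    ((range (p ^ L)).filter (fun z : ℕ => (mach p φ c).Fx N (.pre 0) (x, (z : ℤ)))).card := by
  induction m with
  | zero => rfl
  | succ m ih =>
    rw [← ih]
    rw [show L + (m + 1) = (L + m) + 1 by ring, ← card_dvd p (L + m) hp.out.pos]
    congr 1
    apply Finset.filter_congr
    intro z _
    rw [show N + (m + 1) = (N + m) + 1 by ring,
      fx_rot p φ c hd (q := .pre (m + 1)) (q' := .pre m) (fun _ _ => rfl) (fun _ _ => rfl)
        (fun _ => rfl)]
    have e1 : ((p : ℤ) ∣ (z : ℤ)) ↔ p ∣ z := Int.natCast_dvd_natCast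
    have e2 : (z : ℤ) / (p : ℤ) = ((z / p : ℕ) : ℤ) := by push_cast; rfl
    rw [e1, e2]

open Classical in
theorem count_odo (hd : 0 < d) (N : ℕ) (x : ℤ) :
    ((range (p ^ N)).filter (fun z : ℕ => (mach p φ c).Fx N .odo (x, (z : ℤ)))).card = 1 := by
  induction N with
  | zero =>
    rw [Finset.filter_true_of_mem]
    · simp
    · intro z _; trivial
  | succ N ih =>
    refine Eq.trans ?_ ih
    rw [← card_dvd p N hp.out.pos]
    congr 1
    apply Finset.filter_congr
    intro z _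
    rw [fx_rot p φ c hd (q := .odo) (q' := .odo) (fun _ _ => rfl) (fun _ _ => rfl)
        (fun _ => rfl)]
    have e1 : ((p : ℤ) ∣ (z : ℤ)) ↔ p ∣ z := Int.natCast_dvd_natCast
    have e2 : (z : ℤ) / (p : ℤ) = ((z / p : ℕ) : ℤ) := by push_cast; rfl
    rw [e1, e2]

/-! ### the finite quotient -/

theorem onLevel_periodic (n : ℕ) (q : St p) (x z : ℤ) (hx : (p : ℤ) ∣ x) (hz : (p : ℤ) ^ n ∣ z) :
    onLevel n ((mach p φ c).aut q (x, z)) = 1 := by
  apply Equiv.ext
  rintro ⟨w, hw⟩
  apply Subtype.ext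
  change (mach p φ c).act q (x, z) w = w
  exact act_periodic p φ c w q x z hx (by rw [hw]; exact hz)

theorem onLevel_congr (n : ℕ) (q : St p) (x z x' z' : ℤ) (hx : (p : ℤ) ∣ x - x')
    (hz : (p : ℤ) ^ n ∣ z - z') :
    onLevel n ((mach p φ c).aut q (x, z)) = onLevel n ((mach p φ c).aut q (x', z')) := by
  have h : ((x, z) : ℤ × ℤ) = (x', z') + (x - x', z - z') := by ext <;> simp
  rw [h, Mach.aut_add]
  have h2 := (onLevelHom (d := d) n).map_mul ((mach p φ c).aut q (x', z'))
    ((mach p φ c).aut q (x - x', z - z'))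
  change onLevel n _ = onLevel n _ * onLevel n _ at h2
  rw [h2, onLevel_periodic p φ c n q _ _ hx hz, mul_one]

noncomputable def finHom (n : ℕ) (q : St p) :
    Multiplicative (ZMod p × ZMod (p ^ n)) →* Equiv.Perm (Level d n) :=
  haveI : NeZero p := ⟨hp.out.ne_zero⟩
  haveI : NeZero (p ^ n) := ⟨pow_ne_zero _ hp.out.ne_zero⟩
  MonoidHom.mk' (fun a => onLevel n ((mach p φ c).aut q ((a.toAdd.1.val : ℤ), (a.toAdd.2.val : ℤ))))
    (by
      intro a b
      have h2 := (onLevelHom (d := d) n).map_mul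
        ((mach p φ c).aut q ((a.toAdd.1.val : ℤ), (a.toAdd.2.val : ℤ)))
        ((mach p φ c).aut q ((b.toAdd.1.val : ℤ), (b.toAdd.2.val : ℤ)))
      change onLevel n _ = onLevel n _ * onLevel n _ at h2
      rw [← h2, ← Mach.aut_add]
      apply onLevel_congr
      · rw [← intCast_zero_iff]
        push_cast
        simp [ZMod.natCast_zmod_val]
      · have : ((p ^ n : ℕ) : ℤ) = (p : ℤ) ^ n := by push_cast; rfl
        rw [← this, ← ZMod.intCast_zmod_eq_zero_iff_dvd]
        push_cast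
        simp [ZMod.natCast_zmod_val])

theorem finHom_apply (n : ℕ) (q : St p) (a : ZMod p × ZMod (p ^ n)) :
    finHom p φ c n q (Multiplicative.ofAdd a) =
      onLevel n ((mach p φ c).aut q ((a.1.val : ℤ), (a.2.val : ℤ))) := rfl

theorem range_finHom (n : ℕ) (q : St p) :
    levelImage ((mach p φ c).hom q).range n = Set.range (finHom p φ c n q) := by
  haveI : NeZero p := ⟨hp.out.ne_zero⟩
  haveI : NeZero (p ^ n) := ⟨pow_ne_zero _ hp.out.ne_zero⟩
  ext σ
  constructor
  · rintro ⟨g, ⟨⟨x, z⟩, rfl⟩, rfl⟩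
    refine ⟨Multiplicative.ofAdd ((x : ZMod p), (z : ZMod (p ^ n))), ?_⟩
    rw [finHom_apply]
    change _ = onLevel n ((mach p φ c).aut q (x, z))
    apply onLevel_congr
    · rw [← intCast_zero_iff]
      push_cast
      simp [ZMod.natCast_zmod_val]
    · have : ((p ^ n : ℕ) : ℤ) = (p : ℤ) ^ n := by push_cast; rfl
      rw [← this, ← ZMod.intCast_zmod_eq_zero_iff_dvd]
      push_cast
      simp [ZMod.natCast_zmod_val]
  · rintro ⟨a, rfl⟩
    exact ⟨_, ⟨Multiplicative.ofAdd ((a.toAdd.1.val : ℤ), (a.toAdd.2.val : ℤ)), rfl⟩, rfl⟩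

open Classical in
theorem fixProp_eq (n : ℕ) (q : St p) :
    fixProp ((mach p φ c).hom q).range n =
      ((∑ x ∈ range p, ((range (p ^ n)).filter
        (fun z : ℕ => (mach p φ c).Fx n q ((x : ℤ), (z : ℤ)))).card : ℕ) : ℝ) /
        ((p : ℝ) * (p : ℝ) ^ n) := by
  haveI : NeZero p := ⟨hp.out.ne_zero⟩
  haveI : NeZero (p ^ n) := ⟨pow_ne_zero _ hp.out.ne_zero⟩
  unfold fixProp
  rw [range_finHom, card_fiber_ratio (finHom p φ c n q) (fun σ => ∃ v, σ v = v)]
  have hcard : Nat.card (Multiplicative (ZMod p × ZMod (p ^ n))) = p * p ^ n := by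
    rw [Nat.card_congr Multiplicative.toAdd, Nat.card_prod, Nat.card_zmod, Nat.card_zmod]
  rw [hcard]
  congr 1
  · congr 1
    -- the count
    have h1 : ((fun a : Multiplicative (ZMod p × ZMod (p ^ n)) => (a.toAdd.1.val, a.toAdd.2.val)) ''
        {a | ∃ v, (finHom p φ c n q) a v = v}) =
        (((range p ×ˢ range (p ^ n)).filter
          (fun y : ℕ × ℕ => (mach p φ c).Fx n q ((y.1 : ℤ), (y.2 : ℤ))) : Finset (ℕ × ℕ)) :
            Set (ℕ × ℕ)) := by
      ext ⟨x, z⟩
      simp only [Set.mem_image, Set.mem_ofPred_eq, Finset.coe_filter, Finset.mem_product,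
        Finset.mem_range, Prod.mk.injEq]
      constructor
      · rintro ⟨a, h, rfl, rfl⟩
        refine ⟨⟨ZMod.val_lt _, ZMod.val_lt _⟩, ?_⟩
        rw [← Mach.onLevel_fix]
        exact h
      · rintro ⟨⟨hx, hz⟩, h⟩
        refine ⟨Multiplicative.ofAdd ((x : ZMod p), (z : ZMod (p ^ n))), ?_, ?_, ?_⟩
        · rw [← Mach.onLevel_fix] at h
          rw [finHom_apply]
          simpa only [ZMod.val_natCast_of_lt hx, ZMod.val_natCast_of_lt hz] using h
        · exact ZMod.val_natCast_of_lt hx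
        · exact ZMod.val_natCast_of_lt hz
    have hinj : Function.Injective
        (fun a : Multiplicative (ZMod p × ZMod (p ^ n)) => (a.toAdd.1.val, a.toAdd.2.val)) := by
      intro a b hab
      simp only [Prod.mk.injEq] at hab
      apply Multiplicative.toAdd.injective
      exact Prod.ext (ZMod.val_injective _ hab.1) (ZMod.val_injective _ hab.2)
    rw [← Set.ncard_image_of_injective _ hinj, h1, Set.ncard_coe_finset, Finset.card_filter,
      Finset.sum_product]
    apply Finset.sum_congr rfl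
    intro x _
    rw [Finset.card_filter]
  · push_cast; rfl

theorem fixProp_pre (he : 0 < e) (hd : 0 < d) (hc : ∀ n, c n ≤ p - 1) (m N : ℕ) :
    fixProp ((mach p φ c).hom (.pre m)).range (N + 2 + m) =
      (1 + (p - 1) * SS p c ((N + 1) / 2) 0) / (p * (p : ℝ) ^ m) := by
  classical
  have hpos : (0 : ℝ) < p := by exact_mod_cast hp.out.pos
  rw [fixProp_eq]
  set k := (N + 1) / 2 with hk
  set ε := (N + 1) % 2 with hε
  have hN : N + 1 = 2 * k + ε := by omega
  have hterm : ∀ x ∈ range p, (((range (p ^ (N + 2 + m))).filter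
        (fun z : ℕ => (mach p φ c).Fx (N + 2 + m) (.pre m) ((x : ℤ), (z : ℤ)))).card : ℝ) =
      if x = 0 then (p : ℝ) ^ (N + 2) else (p : ℝ) ^ (N + 2) * SS p c k 0 := by
    intro x hx
    rw [count_pre p φ c hd, count_pre0 p φ c he hd N (N + 2) x (by simpa using hx)]
    split_ifs with h
    · push_cast; rfl
    · have hx' : ((x : ℤ) : ZMod p) ≠ 0 := by
        rw [Int.cast_natCast]
        intro h0
        rw [ZMod.natCast_eq_zero_iff] at h0
        have := Finset.mem_range.1 hx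
        exact absurd (Nat.le_of_dvd (by omega) h0) (by omega)
      have := cnt_formula p φ c he hd hc ε (by omega) x hx' k 0 (N + 2 - k)
      rw [show N + 2 - k + k = N + 2 by omega, ← hN] at this
      exact this
  push_cast
  rw [Finset.sum_congr rfl hterm]
  obtain ⟨p', hp'⟩ : ∃ p', p = p' + 1 := ⟨p - 1, by have := hp.out.pos; omega⟩
  have hsum : ∑ x ∈ range p, (if x = 0 then (p : ℝ) ^ (N + 2) else
      (p : ℝ) ^ (N + 2) * SS p c k 0) = (p : ℝ) ^ (N + 2) * (1 + (p - 1) * SS p c k 0) := by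
    have : range p = range (p' + 1) := by rw [hp']
    rw [this, Finset.sum_range_succ']
    simp only [Nat.add_eq_zero_iff, one_ne_zero, and_false, if_false, if_true, Finset.sum_const,
      Finset.card_range, nsmul_eq_mul]
    have hp'' : (p' : ℝ) = p - 1 := by rw [hp']; push_cast; ring
    rw [hp'']
    ring
  rw [hsum, pow_add (p : ℝ) (N + 2) m]
  field_simp

theorem fixProp_odo (hd : 0 < d) (n : ℕ) :
    fixProp ((mach p φ c).hom .odo).range n = 1 / (p : ℝ) ^ n := by
  classical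
  have hpos : (0 : ℝ) < p := by exact_mod_cast hp.out.pos
  rw [fixProp_eq]
  have hc1 : ∀ x ∈ range p, ((range (p ^ n)).filter
      (fun z : ℕ => (mach p φ c).Fx n .odo ((x : ℤ), (z : ℤ)))).card = 1 :=
    fun x _ => count_odo p φ c hd n (x : ℤ)
  rw [Finset.sum_congr rfl hc1]
  simp only [Finset.sum_const, Finset.card_range, smul_eq_mul, mul_one]
  field_simp

theorem hom_range (q : St p) :
    ((mach p φ c).hom q).range =
      Subgroup.closure {(mach p φ c).aut q (1, 0), (mach p φ c).aut q (0, 1)} := by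
  apply le_antisymm
  · rintro _ ⟨⟨x, z⟩, rfl⟩
    change (mach p φ c).aut q (x, z) ∈ _
    have e1 : ∀ x : ℤ, (mach p φ c).aut q (x, 0) = (mach p φ c).aut q (1, 0) ^ x := by
      intro x
      have := map_zpow ((mach p φ c).hom q) (Multiplicative.ofAdd ((1, 0) : ℤ × ℤ)) x
      have h2 : (Multiplicative.ofAdd ((1, 0) : ℤ × ℤ)) ^ x = Multiplicative.ofAdd ((x, 0) : ℤ × ℤ) := by
        rw [← ofAdd_zsmul]
        simp
      rw [h2] at this
      exact this
    have e2 : ∀ z : ℤ, (mach p φ c).aut q (0, z) = (mach p φ c).aut q (0, 1) ^ z := by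
      intro z
      have := map_zpow ((mach p φ c).hom q) (Multiplicative.ofAdd ((0, 1) : ℤ × ℤ)) z
      have h2 : (Multiplicative.ofAdd ((0, 1) : ℤ × ℤ)) ^ z = Multiplicative.ofAdd ((0, z) : ℤ × ℤ) := by
        rw [← ofAdd_zsmul]
        simp
      rw [h2] at this
      exact this
    have e3 : (mach p φ c).aut q (x, z) =
        (mach p φ c).aut q (1, 0) ^ x * (mach p φ c).aut q (0, 1) ^ z := by
      rw [← e1, ← e2, ← Mach.aut_add]
      simp
    rw [e3]
    exact Subgroup.mul_mem _ (Subgroup.zpow_mem _ (Subgroup.subset_closure (by simp)) _)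
      (Subgroup.zpow_mem _ (Subgroup.subset_closure (by simp)) _)
  · rw [Subgroup.closure_le]
    rintro _ (rfl | rfl)
    · exact ⟨Multiplicative.ofAdd (1, 0), rfl⟩
    · exact ⟨Multiplicative.ofAdd (0, 1), rfl⟩

theorem aut_comm (q : St p) : Commute ((mach p φ c).aut q (1, 0)) ((mach p φ c).aut q (0, 1)) := by
  unfold Commute SemiconjBy
  rw [← Mach.aut_add, ← Mach.aut_add, add_comm]

end

theorem exists_digits (p : ℕ) (hp : 2 ≤ p) (β : ℝ) (h0 : 0 ≤ β) (h1 : β ≤ 1) :
    ∃ c : ℕ → ℕ, (∀ n, c n ≤ p - 1) ∧ ∀ k, ∃ r : ℝ, 0 ≤ r ∧ r ≤ 1 ∧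
      β = ∑ i ∈ range k, (c (0 + i) : ℝ) / (p : ℝ) ^ (i + 1) + r / (p : ℝ) ^ k := by
  have hpos : (0 : ℝ) < p := by exact_mod_cast (by omega : 0 < p)
  -- one digit
  have step : ∀ r : {r : ℝ // 0 ≤ r ∧ r ≤ 1}, ∃ c : ℕ, c ≤ p - 1 ∧ 0 ≤ p * r.1 - c ∧ p * r.1 - c ≤ 1 := by
    rintro ⟨r, hr0, hr1⟩
    have hpr : 0 ≤ (p : ℝ) * r := by positivity
    by_cases h : ⌊(p : ℝ) * r⌋₊ ≤ p - 1
    · refine ⟨⌊(p : ℝ) * r⌋₊, h, ?_, ?_⟩
      · have := Nat.floor_le hpr; simpa using this
      · have := (Nat.lt_floor_add_one ((p : ℝ) * r)).le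
        linarith
    · refine ⟨p - 1, le_rfl, ?_, ?_⟩
      · have h2 : (p : ℝ) ≤ p * r := by
          have : p ≤ ⌊(p : ℝ) * r⌋₊ := by omega
          exact (Nat.le_floor_iff hpr).1 this
        rw [Nat.cast_sub (by omega)]
        push_cast
        linarith
      · rw [Nat.cast_sub (by omega)]
        push_cast
        nlinarith
  choose dg hdg using step
  let R : ℕ → {r : ℝ // 0 ≤ r ∧ r ≤ 1} := fun n =>
    Nat.rec ⟨β, h0, h1⟩ (fun _ r => ⟨p * r.1 - dg r, (hdg r).2.1, (hdg r).2.2⟩) n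
  refine ⟨fun n => dg (R n), fun n => (hdg (R n)).1, fun k => ⟨(R k).1, (R k).2.1, (R k).2.2, ?_⟩⟩
  induction k with
  | zero => simp [R]
  | succ k ih =>
    rw [Finset.sum_range_succ]
    have hR : (R (k + 1)).1 = p * (R k).1 - dg (R k) := rfl
    rw [hR]
    simp only [zero_add] at ih ⊢
    rw [pow_succ]
    have hpk : (0 : ℝ) < (p : ℝ) ^ k := by positivity
    have : (dg (R k) : ℝ) / ((p : ℝ) ^ k * p) + (p * (R k).1 - dg (R k)) / ((p : ℝ) ^ k * p) =
        (R k).1 / (p : ℝ) ^ k := by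
      field_simp
      ring
    rw [add_assoc, this]
    exact ih

/-- Main theorem: every `α ∈ [0,1]` is the fixed-point proportion of a group generated by two
commuting automorphisms of the `d`-regular rooted tree. -/
theorem main (d : ℕ) (hd : 2 ≤ d) (α : ℝ) (h0 : 0 ≤ α) (h1 : α ≤ 1) :
    ∃ a b : TreeAut d, Commute a b ∧ HasFPP (Subgroup.closure {a, b}) α := by
  set p := d.minFac with hpdef
  have hpp : p.Prime := Nat.minFac_prime (by omega)
  haveI : Fact p.Prime := ⟨hpp⟩
  haveI : NeZero p := ⟨hpp.ne_zero⟩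
  obtain ⟨e, he⟩ := Nat.minFac_dvd d
  have hepos : 0 < e := by
    rcases Nat.eq_zero_or_pos e with h | h
    · rw [h, mul_zero] at he; omega
    · exact h
  have hcard : Fintype.card (Fin d) = Fintype.card (ZMod p × Fin e) := by
    rw [Fintype.card_prod, ZMod.card, Fintype.card_fin, Fintype.card_fin]
    exact he
  let φ : Fin d ≃ ZMod p × Fin e := Fintype.equivOfCardEq hcard
  have hp2 : 2 ≤ p := hpp.two_le
  have hpos : (0 : ℝ) < p := by exact_mod_cast hpp.pos
  have hp1 : (1 : ℝ) < p := by exact_mod_cast hpp.one_lt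
  rcases h0.eq_or_lt with h | hα
  · -- α = 0
    subst h
    let c : ℕ → ℕ := fun _ => 0
    refine ⟨_, _, aut_comm p φ c .odo, ?_⟩
    rw [← hom_range]
    unfold HasFPP
    simp only [fixProp_odo p φ c (by omega : 0 < d)]
    have : (fun n : ℕ => 1 / (p : ℝ) ^ n) = fun n : ℕ => (1 / (p : ℝ)) ^ n := by
      funext n; rw [one_div_pow]
    rw [this]
    exact tendsto_pow_atTop_nhds_zero_of_lt_one (by positivity) (by rw [div_lt_one hpos]; exact hp1)
  · obtain ⟨m, hm1, hm2⟩ := exists_nat_pow_near_of_lt_one hα h1 (y := 1 / (p : ℝ)) (by positivity)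
      (by rw [div_lt_one hpos]; exact hp1)
    have hpm : (0 : ℝ) < (p : ℝ) ^ m := by positivity
    rw [one_div_pow, pow_succ] at hm1
    rw [one_div_pow] at hm2
    set β : ℝ := (α * (p : ℝ) ^ m * p - 1) / (p - 1) with hβ
    have hm1' : 1 < α * (p : ℝ) ^ m * p := by
      rw [div_lt_iff₀ (by positivity)] at hm1
      linarith
    have hm2' : α * (p : ℝ) ^ m ≤ 1 := by
      rw [le_div_iff₀ hpm] at hm2
      exact hm2
    have hβ0 : 0 ≤ β := div_nonneg (by linarith) (by linarith)
    have hβ1 : β ≤ 1 := by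
      rw [hβ, div_le_one (by linarith)]
      nlinarith
    obtain ⟨c, hc, hcr⟩ := exists_digits p hp2 β hβ0 hβ1
    refine ⟨_, _, aut_comm p φ c (.pre m), ?_⟩
    rw [← hom_range]
    unfold HasFPP
    rw [← tendsto_add_atTop_iff_nat (2 + m)]
    have hf : (fun N => fixProp ((mach p φ c).hom (.pre m)).range (N + (2 + m))) =
        fun N => (1 + (p - 1) * SS p c ((N + 1) / 2) 0) / (p * (p : ℝ) ^ m) := by
      funext N
      rw [← add_assoc]
      exact fixProp_pre p φ c hepos (by omega) hc m N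
    rw [hf]
    have hSS : Tendsto (fun k => SS p c k 0) atTop (𝓝 β) := by
      have hlim : Tendsto (fun k : ℕ => (1 / (p : ℝ)) ^ k) atTop (𝓝 0) :=
        tendsto_pow_atTop_nhds_zero_of_lt_one (by positivity)
          (by rw [div_lt_one hpos]; exact hp1)
      rw [tendsto_iff_dist_tendsto_zero]
      refine squeeze_zero (fun _ => dist_nonneg) (fun k => ?_) hlim
      obtain ⟨r, hr0, hr1, hr⟩ := hcr k
      rw [Real.dist_eq]
      have : SS p c k 0 - β = (1 - r) / (p : ℝ) ^ k := by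
        rw [hr]; unfold SS; ring
      rw [this, abs_of_nonneg (div_nonneg (by linarith) (by positivity)), one_div_pow]
      exact div_le_div_of_nonneg_right (by linarith) (by positivity)
    have hk : Tendsto (fun N : ℕ => (N + 1) / 2) atTop atTop := by
      apply Filter.tendsto_atTop_atTop.2
      intro b
      exact ⟨2 * b, fun a ha => by omega⟩
    have hfin := ((hSS.comp hk).const_mul ((p : ℝ) - 1)).const_add 1 |>.div_const (p * (p : ℝ) ^ m)
    have hval : (1 + ((p : ℝ) - 1) * β) / (p * (p : ℝ) ^ m) = α := by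
      rw [hβ, mul_div_cancel₀ _ (by linarith : (p : ℝ) - 1 ≠ 0)]
      field_simp
      ring
    rw [hval] at hfin
    exact hfin

end Pool.Agent.Helper76.FPP
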