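import Mathlib
import Pool.Agent.Helper76.FPP.Machine

set_option autoImplicit false

namespace Pool.Agent.Helper76.FPP

open Filter Topology Finset

/-- The image of `G` in the product of two level groups. -/
def pairHom (d n m : ℕ) :
    TreeAut d →* Equiv.Perm (Level d n) × Equiv.Perm (Level d m) :=
  (onLevelHom n).prod (onLevelHom m)

theorem range_fst {d : ℕ} (G : Subgroup (TreeAut d)) (n m : ℕ) :
    levelImage G n = Set.range ((MonoidHom.fst _ _).comp (G.map (pairHom d n m)).subtype) := by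
  ext σ
  constructor
  · rintro ⟨g, hg, rfl⟩
    exact ⟨⟨pairHom d n m g, ⟨g, hg, rfl⟩⟩, rfl⟩
  · rintro ⟨⟨_, ⟨g, hg, rfl⟩⟩, rfl⟩
    exact ⟨g, hg, rfl⟩

theorem range_snd {d : ℕ} (G : Subgroup (TreeAut d)) (n m : ℕ) :
    levelImage G m = Set.range ((MonoidHom.snd _ _).comp (G.map (pairHom d n m)).subtype) := by
  ext σ
  constructor
  · rintro ⟨g, hg, rfl⟩
    exact ⟨⟨pairHom d n m g, ⟨g, hg, rfl⟩⟩, rfl⟩
  · rintro ⟨⟨_, ⟨g, hg, rfl⟩⟩, rfl⟩
    exact ⟨g, hg, rfl⟩

/-- `fixProp` is non-increasing in the level. -/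
theorem fixProp_anti {d : ℕ} (G : Subgroup (TreeAut d)) {n m : ℕ} (h : n ≤ m) :
    fixProp G m ≤ fixProp G n := by
  have e1 : fixProp G n = _ / _ := rfl
  unfold fixProp
  rw [range_fst G n m, range_snd G n m,
    card_fiber_ratio ((MonoidHom.fst _ _).comp (G.map (pairHom d n m)).subtype)
      (fun σ => ∃ v, σ v = v),
    card_fiber_ratio ((MonoidHom.snd _ _).comp (G.map (pairHom d n m)).subtype)
      (fun σ => ∃ v, σ v = v)]
  apply div_le_div_of_nonneg_right _ (by positivity)
  have : {a : G.map (pairHom d n m) | ∃ v,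
      ((MonoidHom.snd _ _).comp (G.map (pairHom d n m)).subtype) a v = v} ⊆
      {a : G.map (pairHom d n m) | ∃ v,
      ((MonoidHom.fst _ _).comp (G.map (pairHom d n m)).subtype) a v = v} := by
    rintro ⟨_, ⟨g, hg, rfl⟩⟩ ⟨⟨w, hw⟩, hv⟩
    have hgw : (g : Equiv.Perm (List (Fin d))) w = w := congrArg Subtype.val hv
    refine ⟨⟨w.take n, by rw [List.length_take, hw]; omega⟩, ?_⟩
    apply Subtype.ext
    change (g : Equiv.Perm (List (Fin d))) (w.take n) = w.take n
    have h1 : (g : Equiv.Perm (List (Fin d))) (w.take n) <+: w := by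
      conv_rhs => rw [← hgw]
      exact (g.2.2 _ _).2 (List.take_prefix _ _)
    have h2 : ((g : Equiv.Perm (List (Fin d))) (w.take n)).length = n := by
      rw [g.2.1, List.length_take, hw]; omega
    rw [List.prefix_iff_eq_take] at h1
    rw [h1, h2]
  exact_mod_cast Set.ncard_le_ncard this (Set.toFinite _)

/-- A transitive group on `d ≥ 2` points contains a proportion at least `1/d` of derangements. -/
theorem derangements {X : Type} [Finite X] (H : Subgroup (Equiv.Perm X)) (hX : 2 ≤ Nat.card X)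
    (ht : ∀ x y : X, ∃ h ∈ H, h x = y) :
    (({h : H | ∃ x, (h : Equiv.Perm X) x = x}.ncard : ℝ)) ≤
      (1 - 1 / (Nat.card X : ℝ)) * (Nat.card H : ℝ) := by
  classical
  have := Fintype.ofFinite X
  have := Fintype.ofFinite H
  -- number of fixed points
  let fx : H → ℕ := fun h => Fintype.card (MulAction.fixedBy X h)
  have hb1 := MulAction.sum_card_fixedBy_eq_card_orbits_mul_card_group H X
  have hb2 := MulAction.sum_card_fixedBy_eq_card_orbits_mul_card_group H (X × X)
  obtain ⟨x0, x1, hx01⟩ := Fintype.exists_pair_of_one_lt_card (α := X)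
    (by rw [← Nat.card_eq_fintype_card]; omega)
  have hpre : MulAction.IsPretransitive H X := ⟨fun x y => by
    obtain ⟨h, hh, hxy⟩ := ht x y
    exact ⟨⟨h, hh⟩, hxy⟩⟩
  have horb1 : Fintype.card (MulAction.orbitRel.Quotient H X) = 1 := by
    rw [Fintype.card_eq_one_iff]
    refine ⟨Quotient.mk'' x0, ?_⟩
    intro q
    induction q using Quotient.inductionOn' with
    | h y =>
      apply Quotient.sound'
      exact MulAction.exists_smul_eq H x0 y
  have horb2 : 2 ≤ Fintype.card (MulAction.orbitRel.Quotient H (X × X)) := by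
    have : (Quotient.mk'' (x0, x0) : MulAction.orbitRel.Quotient H (X × X)) ≠
        Quotient.mk'' (x0, x1) := by
      intro h
      have := Quotient.exact' h
      obtain ⟨g, hg⟩ := this
      have h1 := congrArg Prod.fst hg
      have h2 := congrArg Prod.snd hg
      simp only [Prod.smul_fst, Prod.smul_snd] at h1 h2
      have h3 : g • x0 = g • x1 := by rw [h1, h2]
      exact hx01 (MulAction.injective g h3)
    exact Fintype.one_lt_card_iff.2 ⟨_, _, this⟩
  have hfx2 : ∀ h : H, Fintype.card (MulAction.fixedBy (X × X) h) = fx h * fx h := by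
    intro h
    rw [← Fintype.card_prod]
    apply Fintype.card_congr
    refine ⟨fun y => (⟨y.1.1, congrArg Prod.fst y.2⟩, ⟨y.1.2, congrArg Prod.snd y.2⟩),
      fun y => ⟨(y.1.1, y.2.1), Prod.ext y.1.2 y.2.2⟩, fun y => rfl, fun y => rfl⟩
  have hs1 : ∑ h : H, (fx h : ℝ) = Fintype.card H := by
    have : ∑ h : H, fx h = Fintype.card H := by rw [hb1, horb1, one_mul]
    exact_mod_cast this
  have hs2 : 2 * (Fintype.card H : ℝ) ≤ ∑ h : H, (fx h : ℝ) ^ 2 := by
    have : 2 * Fintype.card H ≤ ∑ h : H, fx h * fx h := by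
      rw [← Finset.sum_congr rfl (fun h _ => hfx2 h), hb2]
      exact Nat.mul_le_mul_right _ horb2
    have h2 : (2 * (Fintype.card H : ℝ)) ≤ ∑ h : H, (fx h : ℝ) * (fx h : ℝ) := by
      exact_mod_cast this
    simpa only [pow_two] using h2
  set d : ℝ := (Nat.card X : ℝ) with hd
  have hd2 : (2 : ℝ) ≤ d := by rw [hd]; exact_mod_cast hX
  -- pointwise inequality
  have hpt : ∀ h : H, ((fx h : ℝ) - 1) * ((fx h : ℝ) - d) ≤
      d * (1 - if (∃ x, (h : Equiv.Perm X) x = x) then (1 : ℝ) else 0) := by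
    intro h
    split_ifs with hh
    · have h1 : 1 ≤ fx h := by
        obtain ⟨x, hx⟩ := hh
        exact Fintype.card_pos_iff.2 ⟨⟨x, hx⟩⟩
      have h2 : fx h ≤ Nat.card X := by
        rw [Nat.card_eq_fintype_card]
        exact Fintype.card_subtype_le _
      have h1' : (1 : ℝ) ≤ fx h := by exact_mod_cast h1
      have h2' : (fx h : ℝ) ≤ d := by rw [hd]; exact_mod_cast h2
      nlinarith
    · have h1 : fx h = 0 := by
        apply Fintype.card_eq_zero_iff.2
        exact ⟨fun y => hh ⟨y.1, y.2⟩⟩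
      rw [h1]; push_cast
      simp
  have hsum := Finset.sum_le_sum (s := Finset.univ) (fun (h : H) _ => hpt h)
  have hL : ∑ h : H, ((fx h : ℝ) - 1) * ((fx h : ℝ) - d) =
      ∑ h : H, (fx h : ℝ) ^ 2 - (1 + d) * ∑ h : H, (fx h : ℝ) + d * Fintype.card H := by
    rw [Finset.mul_sum, ← Finset.sum_sub_distrib]
    have : d * (Fintype.card H : ℝ) = ∑ _h : H, d := by
      rw [Finset.sum_const, Finset.card_univ, nsmul_eq_mul]; ring
    rw [this, ← Finset.sum_add_distrib]
    apply Finset.sum_congr rfl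
    intro h _
    ring
  have hR : ∑ h : H, d * (1 - if (∃ x, (h : Equiv.Perm X) x = x) then (1 : ℝ) else 0) =
      d * (Fintype.card H - ({h : H | ∃ x, (h : Equiv.Perm X) x = x}.ncard : ℝ)) := by
    rw [← Finset.mul_sum, Finset.sum_sub_distrib]
    congr 1
    rw [Finset.sum_const, Finset.card_univ, nsmul_eq_mul, mul_one, Finset.sum_boole]
    congr 2
    rw [Set.ncard_eq_toFinset_card']
    congr 1
    ext h
    simp
  rw [hL, hR, hs1] at hsum
  rw [Nat.card_eq_fintype_card]
  have hcH : (0 : ℝ) < Fintype.card H := by exact_mod_cast Fintype.card_pos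
  have h3 : d * ({h : H | ∃ x, (h : Equiv.Perm X) x = x}.ncard : ℝ) ≤
      (d - 1) * Fintype.card H := by nlinarith
  have h4 : (1 - 1 / d) * (Fintype.card H : ℝ) = ((d - 1) * Fintype.card H) / d := by
    field_simp
  rw [h4, le_div_iff₀ (by linarith)]
  linarith

theorem trans_main (d : ℕ) (hd : 2 ≤ d) (G : Subgroup (TreeAut d)) (hG : IsLevelTransitive G)
    (α : ℝ) (h : HasFPP G α) : α ≤ 1 - 1 / (d : ℝ) := by
  have h1 : fixProp G 1 ≤ 1 - 1 / (d : ℝ) := by
    let H : Subgroup (Equiv.Perm (Level d 1)) := G.map (onLevelHom 1)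
    have hcard : Nat.card (Level d 1) = d := by
      have : Nat.card (Level d 1) = Nat.card (List.Vector (Fin d) 1) := rfl
      rw [this, Nat.card_eq_fintype_card, card_vector, Fintype.card_fin, pow_one]
    have hder := derangements H (by rw [hcard]; exact hd) (by
      intro x y
      obtain ⟨g, hg, hxy⟩ := hG 1 x y
      exact ⟨onLevel 1 g, ⟨g, hg, rfl⟩, hxy⟩)
    rw [hcard] at hder
    have hr : levelImage G 1 = Set.range H.subtype := by
      ext σ
      constructor
      · rintro ⟨g, hg, rfl⟩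
        exact ⟨⟨onLevel 1 g, ⟨g, hg, rfl⟩⟩, rfl⟩
      · rintro ⟨⟨_, ⟨g, hg, rfl⟩⟩, rfl⟩
        exact ⟨g, hg, rfl⟩
    unfold fixProp
    rw [hr, card_fiber_ratio H.subtype (fun σ => ∃ v, σ v = v)]
    have hpos : (0 : ℝ) < Nat.card H := by exact_mod_cast Nat.card_pos
    rw [div_le_iff₀ hpos]
    exact hder
  exact le_of_tendsto h (Filter.eventually_atTop.2 ⟨1, fun n hn => (fixProp_anti G hn).trans h1⟩)

end Pool.Agent.Helper76.FPP
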